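import Pool.Agent.H43.Quad.PumpWord

/-!
# Rational constraints are nice for quadratic equations in free groups

For every quadratic equation `W = 1` over a finitely generated free group, with a rational
constraint for each variable, there are infinitely many constrained solutions if and only if there
are constrained solutions of arbitrarily large exponent of periodicity.
-/

namespace Pool.Agent.Results.MP_874169_lc.QuadraticNice

open FreeGroup Pool.H43.Quad

variable {A Ω : Type*}

/-- The equation `W` (letters `Sum.inl a` for constants, `Sum.inr X` for variables) is quadratic: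
in the reduced word of `W` every variable `X` occurs at most twice, occurrences of `X` and of its
inverse both counting. -/
def IsQuadratic [DecidableEq A] [DecidableEq Ω] (W : FreeGroup (A ⊕ Ω)) : Prop :=
  ∀ X : Ω, (W.toWord.countP fun p => decide (p.1 = Sum.inr X)) ≤ 2

/-- A subset of the free group is rational if it is the image of a regular language over the
letters of `A` and their inverses (a letter is a pair in `A × Bool`, with `(a, true)` for `a` and
`(a, false)` for the inverse of `a`). -/
def IsRational (R : Set (FreeGroup A)) : Prop :=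
  ∃ l : Language (A × Bool), l.IsRegular ∧ R = {g | ∃ w ∈ l, FreeGroup.mk w = g}

/-- The constrained solutions of `W = 1`: homomorphisms that fix every constant, send `W` to `1`
and send every variable `X` into `R X`. -/
def Solutions (W : FreeGroup (A ⊕ Ω)) (R : Ω → Set (FreeGroup A)) :
    Set (FreeGroup (A ⊕ Ω) →* FreeGroup A) :=
  {σ | (∀ a, σ (of (Sum.inl a)) = of a) ∧ σ W = 1 ∧ ∀ X, σ (of (Sum.inr X)) ∈ R X}

/-- The exponent of periodicity: the largest `e` such that `p ^ e` is a factor of the reduced word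
`σ X` for some nonempty word `p` and some variable `X`. -/
noncomputable def expPer [DecidableEq A] (σ : FreeGroup (A ⊕ Ω) →* FreeGroup A) : ℕ :=
  sSup {e : ℕ | ∃ (X : Ω) (p : List (A × Bool)), p ≠ [] ∧
    (List.replicate e p).flatten <:+: (σ (of (Sum.inr X))).toWord}

/-- The set in the definition of the exponent of periodicity is bounded above. -/
theorem bddAbove_exp [DecidableEq A] [Finite Ω] (σ : FreeGroup (A ⊕ Ω) →* FreeGroup A) :
    BddAbove {e : ℕ | ∃ (X : Ω) (p : List (A × Bool)), p ≠ [] ∧
      (List.replicate e p).flatten <:+: (σ (of (Sum.inr X))).toWord} := by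
  have hfin : (Set.range fun X : Ω => (σ (of (Sum.inr X))).toWord.length).Finite :=
    Set.finite_range _
  obtain ⟨B, hB⟩ := hfin.bddAbove
  refine ⟨B, ?_⟩
  rintro e ⟨X, p, hp, h⟩
  have h1 := h.length_le
  have h2 : (List.replicate e p).flatten.length = e * p.length := by simp
  have h3 : (σ (of (Sum.inr X))).toWord.length ≤ B := hB ⟨X, rfl⟩
  have h4 : 1 ≤ p.length := List.length_pos_iff.mpr hp
  rw [h2] at h1
  nlinarith

/-- The exponent of periodicity is indeed attained: it is the largest exponent of a factor. -/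
theorem expPer_isGreatest [DecidableEq A] [Finite Ω] [Nonempty A] [Nonempty Ω]
    (σ : FreeGroup (A ⊕ Ω) →* FreeGroup A) :
    IsGreatest {e : ℕ | ∃ (X : Ω) (p : List (A × Bool)), p ≠ [] ∧
      (List.replicate e p).flatten <:+: (σ (of (Sum.inr X))).toWord} (expPer σ) := by
  have hne : {e : ℕ | ∃ (X : Ω) (p : List (A × Bool)), p ≠ [] ∧
      (List.replicate e p).flatten <:+: (σ (of (Sum.inr X))).toWord}.Nonempty := by
    refine ⟨0, Classical.arbitrary Ω, [(Classical.arbitrary A, true)], by simp, ?_⟩
    exact ⟨[], (σ (of (Sum.inr (Classical.arbitrary Ω)))).toWord, by simp⟩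
  exact ⟨Nat.sSup_mem hne (bddAbove_exp σ), fun e he => le_csSup (bddAbove_exp σ) he⟩

theorem le_expPer [DecidableEq A] [Finite Ω] {σ : FreeGroup (A ⊕ Ω) →* FreeGroup A} {e : ℕ}
    {X : Ω} {p : List (A × Bool)} (hp : p ≠ [])
    (h : rep e p <:+: (σ (of (Sum.inr X))).toWord) : e ≤ expPer σ :=
  le_csSup (bddAbove_exp σ) ⟨X, p, hp, h⟩

/-- There are only finitely many solutions of bounded length. -/
theorem finite_of_bounded [DecidableEq A] [Finite A] [Finite Ω] (W : FreeGroup (A ⊕ Ω))
    (R : Ω → Set (FreeGroup A)) (B : ℕ)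
    (hB : ∀ σ ∈ Solutions W R, ∀ X, (σ (of (Sum.inr X))).toWord.length ≤ B) :
    (Solutions W R).Finite := by
  have hfw : {w : List (A × Bool) | w.length ≤ B}.Finite := List.finite_length_le _ B
  have : Finite {w : List (A × Bool) // w.length ≤ B} := hfw
  let Φ : Solutions W R → (Ω → {w : List (A × Bool) // w.length ≤ B}) := fun σ X =>
    ⟨(σ.1 (of (Sum.inr X))).toWord, hB σ.1 σ.2 X⟩
  have hinj : Function.Injective Φ := by
    intro σ τ h
    apply Subtype.ext
    apply FreeGroup.ext_hom
    intro s
    rcases s with a | X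
    · rw [σ.2.1 a, τ.2.1 a]
    · have h1 := congrArg Subtype.val (congrFun h X)
      exact toWord_injective h1
  have : Finite (Solutions W R) := Finite.of_injective Φ hinj
  exact Set.toFinite _

/-- Infinitely many solutions give solutions of large exponent. -/
theorem exists_large [Finite A] [Finite Ω] [DecidableEq A] [DecidableEq Ω]
    (W : FreeGroup (A ⊕ Ω)) (hW : IsQuadratic W) (R : Ω → Set (FreeGroup A))
    (hR : ∀ X, IsRational (R X)) (hinf : (Solutions W R).Infinite) (κ : ℕ) :
    ∃ σ ∈ Solutions W R, κ ≤ expPer σ := by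
  classical
  have hR' : ∀ X, ∃ (Q : Type) (_ : Fintype Q) (M : DFA (A × Bool) Q),
      R X = {g | ∃ w ∈ M.accepts, FreeGroup.mk w = g} := by
    intro X
    obtain ⟨l, ⟨Q, hQ, M, hM⟩, hRX⟩ := hR X
    exact ⟨Q, hQ, M, by rw [hRX, hM]⟩
  choose Q hQ D hD using hR'
  have hQf : ∀ X, Finite (Q X) := fun X => @Finite.of_fintype _ (hQ X)
  set L := autLab D with hL
  -- labels decide membership
  have hmem : ∀ (g h : FreeGroup A), L.μ g.toWord = L.μ h.toWord → ∀ X, h ∈ R X → g ∈ R X := by
    intro g h hlab X hh
    rw [hD X] at hh ⊢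
    have h1 : ∃ w ∈ (D X).accepts, FreeGroup.mk w = FreeGroup.mk h.toWord := by
      rw [mk_toWord]; exact hh
    have h2 := mem_of_label D hlab X h1
    rw [mk_toWord] at h2
    exact h2
  obtain ⟨N1, hN1⟩ := Sys.factor_pump L (2 * W.toWord.length) (2 * W.toWord.length)
  obtain ⟨D0, hD0⟩ := pump_word L
  let occ : Ω → Prop := fun X => ∃ b, ((Sum.inr X : A ⊕ Ω), b) ∈ W.toWord
  by_cases hcase : ∃ σ ∈ Solutions W R, ∃ X, occ X ∧ N1 + 1 ≤ (σ (of (Sum.inr X))).toWord.length
  · -- a long value of an occurring variable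
    obtain ⟨σ, ⟨hσ1, hσ2, hσ3⟩, X1, hX1, hlen⟩ := hcase
    have : Nonempty {X // occ X} := ⟨⟨X1, hX1⟩⟩
    obtain ⟨⟨X, hX⟩, hmax⟩ := Finite.exists_max
      (fun X : {X // occ X} => (σ (of (Sum.inr X.1))).toWord.length)
    have hmax' : ∀ Y, occ Y → (σ (of (Sum.inr Y))).toWord.length ≤
        (σ (of (Sum.inr X))).toWord.length := fun Y hY => hmax ⟨Y, hY⟩
    have hXlen : N1 + 1 ≤ (σ (of (Sum.inr X))).toWord.length := hlen.trans (hmax' X1 hX1)
    have hne : σ (of (Sum.inr X)) ≠ 1 := by
      intro h
      rw [h, toWord_one] at hXlen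
      simp at hXlen
    obtain ⟨S, hBd, hM, i, len, hF, hlen2, hpump⟩ :=
      build_assemble L W hW σ hσ1 hσ2 X hX hne hmax'
    obtain ⟨x0, hx1, hx2, hP⟩ := hN1 S i len hF hBd (by omega) (by
      refine hM.trans (le_of_eq ?_)
      rw [← hlen2]; push_cast; ring)
    obtain ⟨σ', h1, h2, h3, p, hp, hpw⟩ := hpump x0 hx1 hx2 κ (hP κ)
    exact ⟨σ', ⟨h1, h2, fun Y => hmem _ _ (h3 Y) Y (hσ3 Y)⟩, le_expPer hp hpw⟩
  · -- a long value of a variable that does not occur
    push Not at hcase
    obtain ⟨σ, ⟨hσ1, hσ2, hσ3⟩, Y, hY⟩ : ∃ σ ∈ Solutions W R, ∃ Y,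
        N1 + D0 < (σ (of (Sum.inr Y))).toWord.length := by
      by_contra hcon
      push Not at hcon
      exact hinf (finite_of_bounded W R (N1 + D0) hcon)
    have hYn : ¬ occ Y := by
      intro hocc
      have := hcase σ ⟨hσ1, hσ2, hσ3⟩ Y hocc
      omega
    obtain ⟨v, hv1, hv2, p, hp, hpv⟩ := hD0 _ (isReduced_toWord (x := σ (of (Sum.inr Y))))
      (by omega) κ
    let σ' : FreeGroup (A ⊕ Ω) →* FreeGroup A := FreeGroup.lift
      (Sum.elim (fun a => of a) (fun Z => if Z = Y then FreeGroup.mk v else σ (of (Sum.inr Z))))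
    have hl : ∀ a, σ' (of (Sum.inl a)) = of a := by
      intro a; simp only [σ', lift_apply_of, Sum.elim_inl]
    have hr : ∀ Z, σ' (of (Sum.inr Z)) =
        if Z = Y then FreeGroup.mk v else σ (of (Sum.inr Z)) := by
      intro Z; simp only [σ', lift_apply_of, Sum.elim_inr]
    have hword : (σ' (of (Sum.inr Y))).toWord = v := by
      rw [hr, if_pos rfl]; exact toWord_mk_of_isReduced hv1
    have hof : ∀ c ∈ W.toWord, σ' (FreeGroup.mk [c]) = σ (FreeGroup.mk [c]) := by
      rintro ⟨s, b⟩ hc
      have hs : σ' (of s) = σ (of s) := by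
        rcases s with a | Z
        · rw [hl, hσ1]
        · rw [hr, if_neg]
          rintro rfl
          exact hYn ⟨b, hc⟩
      cases b
      · have e : (FreeGroup.mk [(s, false)] : FreeGroup (A ⊕ Ω)) = (of s)⁻¹ := by
          have := mk_single_not s true
          exact this
        rw [e, _root_.map_inv, _root_.map_inv, hs]
      · exact hs
    have hW1 : σ' W = 1 := by
      have e1 : σ' W = σ W := by
        rw [← mk_toWord (x := W), hom_mk, hom_mk]
        congr 1
        exact List.map_congr_left hof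
      rw [e1, hσ2]
    refine ⟨σ', ⟨hl, hW1, ?_⟩, le_expPer (X := Y) hp (by rw [hword]; exact hpv)⟩
    intro Z
    by_cases hZ : Z = Y
    · subst hZ
      exact hmem _ (σ (of (Sum.inr Z))) (by rw [hword]; exact hv2) Z (hσ3 Z)
    · rw [hr, if_neg hZ]; exact hσ3 Z

/-- **Main theorem.** Rational constraints are nice for quadratic equations in free groups: for a
finite alphabet `A`, finitely many variables `Ω`, a quadratic equation `W = 1` and rational
constraints `R X`, there are infinitely many constrained solutions if and only if there are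
constrained solutions of arbitrarily large exponent of periodicity. -/
theorem result [Finite A] [Finite Ω] [DecidableEq A] [DecidableEq Ω] (W : FreeGroup (A ⊕ Ω))
    (hW : IsQuadratic W) (R : Ω → Set (FreeGroup A)) (hR : ∀ X, IsRational (R X)) :
    (Solutions W R).Infinite ↔ ∀ κ : ℕ, ∃ σ ∈ Solutions W R, κ ≤ expPer σ := by
  constructor
  · intro h κ
    exact exists_large W hW R hR h κ
  · intro h hfin
    obtain ⟨B, hB⟩ := (hfin.image expPer).bddAbove
    obtain ⟨σ, hσ, hκ⟩ := h (B + 1)
    have := hB ⟨σ, hσ, rfl⟩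
    omega

end Pool.Agent.Results.MP_874169_lc.QuadraticNice
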